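import Pool.Agent.H82.EUC.Stmts5

/-! Board euc, row GDA (helper86): the conditions inside the blocks and the potentials. -/

set_option autoImplicit false

namespace Pool.EUC

theorem gda_lt (a b c : ℤ) : |(a : ℝ) - (b : ℝ)| < |(a : ℝ) - (c : ℝ)| ↔
    max (a - b) (-(a - b)) < max (a - c) (-(a - c)) := by
  rw [← abs_eq_max_neg, ← abs_eq_max_neg]
  constructor
  · intro h; exact_mod_cast h
  · intro h; exact_mod_cast h

theorem gda_lt2 (a b c : ℤ) (hac : a < c) (h : |(a : ℝ) - (b : ℝ)| < |(a : ℝ) - (c : ℝ)|) :
    (b : ℝ) < (c : ℝ) := by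
  rw [gda_lt] at h
  have : b < c := by omega
  exact_mod_cast this

theorem gda_thm : GDA_S := by
  intro V E d h
  refine ⟨?_, ?_, ⟨fun w => (d.posW w : ℝ), ?_⟩, ⟨fun m => (d.posM m : ℝ), ?_⟩⟩
  · rintro (v | e) (_ | _)
    · have h1 := h.LH v
      simp only [Dat.dM]
      rw [gda_lt]
      simp only [Dat.prefM, Dat.posW, Bool.not_false]
      omega
    · have h1 := h.LH v
      simp only [Dat.dM]
      rw [gda_lt]
      simp only [Dat.prefM, Dat.posW, Bool.not_true]
      omega
    · have h1 := h.XLR e
      simp only [Dat.dM]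
      rw [gda_lt]
      simp only [Dat.prefM, Dat.posW, Bool.not_false]
      omega
    · have h1 := h.XLR e
      simp only [Dat.dM]
      rw [gda_lt]
      simp only [Dat.prefM, Dat.posW, Bool.not_true]
      omega
  · rintro (v | e) (_ | _)
    · have h1 := h.LH v
      simp only [Dat.dW]
      rw [gda_lt]
      simp only [Dat.prefW, Dat.posM, Bool.not_false]
      omega
    · have h1 := h.LH v
      simp only [Dat.dW]
      rw [gda_lt]
      simp only [Dat.prefW, Dat.posM, Bool.not_true]
      omega
    · have h1 := h.XLR e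
      simp only [Dat.dW]
      rw [gda_lt]
      simp only [Dat.prefW, Dat.posM, Bool.not_false]
      omega
    · have h1 := h.XLR e
      simp only [Dat.dW]
      rw [gda_lt]
      simp only [Dat.prefW, Dat.posM, Bool.not_true]
      omega
  · intro m w hlt
    refine gda_lt2 (d.prefM m) (d.posW w) (d.posW m) ?_ hlt
    obtain ⟨v | e, _ | _⟩ := m
    · simp only [Dat.prefM, Dat.posW]; omega
    · simp only [Dat.prefM, Dat.posW]; omega
    · simp only [Dat.prefM, Dat.posW]; omega
    · have h1 := h.XLR e
      simp only [Dat.prefM, Dat.posW]; omega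
  · intro w m hlt
    refine gda_lt2 (d.prefW w) (d.posM m) (d.posM (w.1, !w.2)) ?_ hlt
    obtain ⟨v | e, _ | _⟩ := w
    · simp only [Dat.prefW, Dat.posM, Bool.not_false]; omega
    · have h1 := h.LH v
      simp only [Dat.prefW, Dat.posM, Bool.not_true]; omega
    · simp only [Dat.prefW, Dat.posM, Bool.not_false]; omega
    · simp only [Dat.prefW, Dat.posM, Bool.not_true]; omega

end Pool.EUC
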